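import Mathlib

set_option autoImplicit false

namespace Pool.Agent.Results.MP_36a07b_nt.Doubling

def t (n : ℕ) : ℤ := (-1) ^ (Nat.digits 2 n).count 1

lemma t_even (n : ℕ) : t (2 * n) = t n := by
  unfold t
  rcases Nat.eq_zero_or_pos n with h | h
  · simp [h]
  · rw [Nat.digits_def' (by norm_num) (by omega)]
    simp

lemma t_odd (n : ℕ) : t (2 * n + 1) = -t n := by
  unfold t
  rw [Nat.digits_def' (by norm_num) (by omega)]
  have h1 : (2 * n + 1) % 2 = 1 := by omega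
  have h2 : (2 * n + 1) / 2 = n := by omega
  rw [h1, h2]
  simp [pow_succ]

lemma t_add (k : ℕ) : ∀ i, i < 2 ^ k → t (2 ^ k + i) = -t i := by
  induction k with
  | zero =>
    intro i hi
    have : i = 0 := by omega
    subst this
    simpa using t_odd 0
  | succ k ih =>
    intro i hi
    rcases Nat.even_or_odd' i with ⟨j, rfl | rfl⟩
    · have : 2 ^ (k + 1) + 2 * j = 2 * (2 ^ k + j) := by ring
      rw [this, t_even, t_even, ih j (by rw [pow_succ] at hi; omega)]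
    · have : 2 ^ (k + 1) + (2 * j + 1) = 2 * (2 ^ k + j) + 1 := by ring
      rw [this, t_odd, t_odd, ih j (by rw [pow_succ] at hi; omega)]

lemma t_last (k : ℕ) : ∀ m, m + 1 = 2 ^ k → t m = (-1) ^ k := by
  induction k with
  | zero =>
    intro m hm
    have : m = 0 := by omega
    subst this
    simp [t]
  | succ k ih =>
    intro m hm
    have hp : 0 < 2 ^ k := by positivity
    obtain ⟨j, hj⟩ : ∃ j, j + 1 = 2 ^ k := ⟨2 ^ k - 1, by omega⟩
    have : m = 2 * j + 1 := by rw [pow_succ] at hm; omega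
    rw [this, t_odd, ih j hj]
    ring

def P : ℕ → ℤ × ℤ × ℤ × ℤ
  | 0 => (1, 0, 0, 1)
  | n + 1 => (t n * (P n).1 + (P n).2.2.1, t n * (P n).2.1 + (P n).2.2.2, (P n).1, (P n).2.1)

lemma P_add (k : ℕ) (i : ℕ) (hi : i ≤ 2 ^ k) :
    P (2 ^ k + i) =
      ((-1) ^ i * ((P i).1 * (P (2 ^ k)).1 - (P i).2.1 * (P (2 ^ k)).2.2.1),
       (-1) ^ i * ((P i).1 * (P (2 ^ k)).2.1 - (P i).2.1 * (P (2 ^ k)).2.2.2),
       (-1) ^ i * ((P i).2.2.2 * (P (2 ^ k)).2.2.1 - (P i).2.2.1 * (P (2 ^ k)).1),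
       (-1) ^ i * ((P i).2.2.2 * (P (2 ^ k)).2.2.2 - (P i).2.2.1 * (P (2 ^ k)).2.1)) := by
  induction i with
  | zero => simp [P]
  | succ i ih =>
    rw [← add_assoc, P, ih (by omega), t_add k i (by omega), P]
    simp only [Prod.mk.injEq]
    refine ⟨by ring, by ring, by ring, by ring⟩

lemma P_det (n : ℕ) : (P n).1 * (P n).2.2.2 - (P n).2.1 * (P n).2.2.1 = (-1) ^ n := by
  induction n with
  | zero => simp [P]
  | succ n ih =>
    simp only [P]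
    rw [pow_succ, ← ih]
    ring

lemma P_dbl (k : ℕ) (hk : 1 ≤ k) :
    P (2 ^ (k + 1)) =
      ((P (2 ^ k)).1 * (P (2 ^ k)).1 - (P (2 ^ k)).2.1 * (P (2 ^ k)).2.2.1,
       (P (2 ^ k)).1 * (P (2 ^ k)).2.1 - (P (2 ^ k)).2.1 * (P (2 ^ k)).2.2.2,
       (P (2 ^ k)).2.2.2 * (P (2 ^ k)).2.2.1 - (P (2 ^ k)).2.2.1 * (P (2 ^ k)).1,
       (P (2 ^ k)).2.2.2 * (P (2 ^ k)).2.2.2 - (P (2 ^ k)).2.2.1 * (P (2 ^ k)).2.1) := by
  have h : 2 ^ (k + 1) = 2 ^ k + 2 ^ k := by ring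
  have he : Even (2 ^ k) := (Nat.even_pow.mpr ⟨even_two, by omega⟩)
  rw [h, P_add k _ le_rfl, he.neg_one_pow]
  simp

lemma P_sym (k : ℕ) (hk : 1 ≤ k) : (P (2 ^ k)).2.2.1 = (-1) ^ k * (P (2 ^ k)).2.1 := by
  induction k, hk using Nat.le_induction with
  | base =>
    have h1 : t 1 = -t 0 := t_odd 0
    have h0 : t 0 = 1 := by simp [t]
    simp [P, h1, h0]
  | succ k hk ih =>
    rw [P_dbl k hk]
    simp only
    rw [ih]
    ring

lemma h_eq (h : ℕ → ℤ) (h0 : h 0 = 0) (h1 : h 1 = 1)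
    (hr : ∀ n, h (n + 2) = t (n + 2) * h (n + 1) + h n) (n : ℕ) :
    h (n + 1) = (P (n + 2)).1 - (P (n + 2)).2.1 ∧ h n = (P (n + 2)).2.2.1 - (P (n + 2)).2.2.2 := by
  induction n with
  | zero =>
    have h1' : t 1 = -t 0 := t_odd 0
    have h0' : t 0 = 1 := by simp [t]
    simp [P, h0, h1, h1', h0']
  | succ n ih =>
    rw [show n + 1 + 2 = (n + 2) + 1 from rfl, P, hr n]
    simp only
    refine ⟨by rw [ih.1, ih.2]; ring, ih.1⟩

lemma g_eq (h : ℕ → ℤ) (h0 : h 0 = 0) (h1 : h 1 = 1)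
    (hr : ∀ n, h (n + 2) = t (n + 2) * h (n + 1) + h n) (k m : ℕ) (hk : 1 ≤ k)
    (hm : m + 3 = 2 ^ k) :
    h m = (P (2 ^ k)).1 - 2 * (P (2 ^ k)).2.1 + (-1) ^ k * (P (2 ^ k)).2.2.2 := by
  have e := h_eq h h0 h1 hr (m + 1)
  rw [show m + 1 + 2 = 2 ^ k by omega] at e
  have e2 := hr m
  rw [t_last k (m + 2) hm, show m + 2 = m + 1 + 1 from rfl, e.1, e.2, P_sym k hk] at e2
  have hs : ((-1 : ℤ) ^ k) ^ 2 = 1 := by rw [← pow_mul, mul_comm, pow_mul]; simp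
  linear_combination (-1 : ℤ) * e2 - (P (2 ^ k)).2.1 * hs

lemma back (h : ℕ → ℤ) (hr : ∀ n, h (n + 2) = t (n + 2) * h (n + 1) + h n) (k m : ℕ)
    (hk : 2 ≤ k) (hm : m + 3 = 2 ^ k) : h (2 * m) = (-1) ^ k * h (2 * m + 3) := by
  obtain ⟨j, rfl⟩ : ∃ j, k = j + 1 := ⟨k - 1, by omega⟩
  have hp : 2 ∣ 2 ^ j := dvd_pow_self 2 (by omega)
  obtain ⟨q, hq⟩ : ∃ q, m + 1 = 2 * q := ⟨(m + 1) / 2, by rw [pow_succ] at hm; omega⟩
  have tq : t q = (-1) ^ j := t_last j q (by rw [pow_succ] at hm; omega)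
  have t2 : t (2 * m + 2) = (-1) ^ j := by
    rw [show 2 * m + 2 = 2 * (2 * q) by omega, t_even, t_even, tq]
  have t3 : t (2 * m + 1 + 2) = -(-1) ^ j := by
    rw [show 2 * m + 1 + 2 = 2 * (2 * q) + 1 by omega, t_odd, t_even, tq]
  have e2 := hr (2 * m)
  have e3 := hr (2 * m + 1)
  rw [t2] at e2
  rw [t3, show 2 * m + 1 + 1 = 2 * m + 2 from rfl, e2] at e3
  have hs : ((-1 : ℤ) ^ j) ^ 2 = 1 := by rw [← pow_mul, mul_comm, pow_mul]; simp
  rw [show 2 * m + 3 = 2 * m + 1 + 2 from rfl, e3, pow_succ]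
  linear_combination (-h (2 * m) - (-1) ^ j * h (2 * m + 1)) * hs

theorem result (h : ℕ → ℤ) (h0 : h 0 = 0) (h1 : h 1 = 1)
    (hr : ∀ n, h (n + 2) = (-1) ^ (Nat.digits 2 (n + 2)).count 1 * h (n + 1) + h n) :
    (∀ n m : ℕ, 1 ≤ n → m + 3 = 2 ^ (2 * n) → h m ∣ h (2 * m)) ∧
    (∀ k m : ℕ, Odd k → 3 ≤ k → m + 3 = 2 ^ k → h m ∣ h (2 * m) + 2) := by
  have hr' : ∀ n, h (n + 2) = t (n + 2) * h (n + 1) + h n := hr
  have main : ∀ k m, 2 ≤ k → m + 3 = 2 ^ k →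
      h (2 * m) + (1 - (-1) ^ k) = h m * ((-1) ^ k * ((P (2 ^ k)).1 - (P (2 ^ k)).2.2.2)) := by
    intro k m hk hm
    have he : Even (2 ^ k) := (Nat.even_pow.mpr ⟨even_two, by omega⟩)
    have hd := P_det (2 ^ k)
    rw [he.neg_one_pow] at hd
    rw [back h hr' k m hk hm, g_eq h h0 h1 hr' k m (by omega) hm,
      g_eq h h0 h1 hr' (k + 1) (2 * m + 3) (by omega) (by rw [pow_succ]; omega),
      P_dbl k (by omega)]
    simp only
    rw [P_sym k (by omega)] at hd ⊢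
    rw [pow_succ (-1 : ℤ) k]
    rcases neg_one_pow_eq_or ℤ k with hs | hs <;> rw [hs] at hd ⊢
    · ring
    · linear_combination (-2 : ℤ) * hd
  constructor
  · intro n m hn hm
    have := main (2 * n) m (by omega) hm
    rw [pow_mul] at this
    exact ⟨_, by simpa using this⟩
  · intro k m hk h3 hm
    have := main k m (by omega) hm
    rw [hk.neg_one_pow] at this
    exact ⟨_, by simpa using this⟩

end Pool.Agent.Results.MP_36a07b_nt.Doubling
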